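import Pool.Agent.W525.CB.Stm

/-! Project CB: normality of cyclic covers of the affine space outside the branch locus. -/

set_option autoImplicit false

open Polynomial

namespace Pool.Agent.W45.CB

open Pool.Agent.W525.CB

/-- roots of monic polynomials whose coefficients are integral up to powers of `x` -/
theorem scale (R E : Type) [CommRing R] [Field E] [Algebra R E] (x : E) (hx : IsIntegral R x)
    (p : E[X]) (hp : p.Monic) (hc : ∀ i, ∃ N : ℕ, IsIntegral R (x ^ N * p.coeff i)) (e : E)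
    (he : p.eval e = 0) : ∃ N : ℕ, IsIntegral R (x ^ N * e) := by
  choose Nf hNf using hc
  set M : ℕ := ∑ i ∈ Finset.range (p.natDegree + 1), Nf i with hM
  have hle : ∀ i ∈ Finset.range (p.natDegree + 1), Nf i ≤ M := fun i hi =>
    Finset.single_le_sum (f := Nf) (fun _ _ => Nat.zero_le _) hi
  have h1 : ∀ i ≤ p.natDegree, IsIntegral R (x ^ M * p.coeff i) := by
    intro i hi
    have h2 := hle i (Finset.mem_range.mpr (by omega))
    have h3 : x ^ M * p.coeff i = x ^ (M - Nf i) * (x ^ Nf i * p.coeff i) := by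
      rw [← mul_assoc, ← pow_add, Nat.sub_add_cancel h2]
    rw [h3]
    exact (hx.pow _).mul (hNf i)
  refine ⟨M, ?_⟩
  have h4 : (p.scaleRoots (x ^ M)).eval (x ^ M * e) = 0 := by
    have h5 := scaleRoots_eval₂_eq_zero (RingHom.id E) (p := p) (r := e) (s := x ^ M) he
    exact h5
  have h6 : (p.scaleRoots (x ^ M)).Monic := (monic_scaleRoots_iff _).mpr hp
  have h7 : p.scaleRoots (x ^ M) ∈ lifts (algebraMap (integralClosure R E) E) := by
    rw [lifts_iff_coeff_lifts]
    intro i
    have h8 : IsIntegral R ((p.scaleRoots (x ^ M)).coeff i) := by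
      rw [coeff_scaleRoots]
      rcases lt_trichotomy i p.natDegree with h | h | h
      · have h9 : p.coeff i * (x ^ M) ^ (p.natDegree - i) =
            (x ^ M) ^ (p.natDegree - i - 1) * (x ^ M * p.coeff i) := by
          have h10 : p.natDegree - i = (p.natDegree - i - 1) + 1 := by omega
          rw [h10, pow_succ, Nat.add_sub_cancel]
          ring
        rw [h9]
        exact ((hx.pow M).pow _).mul (h1 i h.le)
      · rw [h, Nat.sub_self, pow_zero, mul_one, hp.coeff_natDegree]
        exact isIntegral_one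
      · rw [coeff_eq_zero_of_natDegree_lt h, zero_mul]
        exact isIntegral_zero
    exact ⟨⟨_, h8⟩, rfl⟩
  obtain ⟨r, hr1, -, hr3⟩ := lifts_and_natDegree_eq_and_monic h7 h6
  have h11 : IsIntegral (integralClosure R E) (x ^ M * e) := by
    refine ⟨r, hr3, ?_⟩
    rw [← eval_map, hr1]
    exact h4
  exact isIntegral_trans _ h11

/-- the discriminant of the power basis -/
theorem disc_step (P L E : Type) [CommRing P] [IsDomain P] [IsIntegrallyClosed P] [Field L]
    [Algebra P L] [IsFractionRing P L] [Field E] [Algebra P E] [Algebra L E] [IsScalarTower P L E]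
    (q : ℕ) (hq : Odd q) (c : P) (x₀ : E) (hx : x₀ ^ q = algebraMap P E c) (hx0 : x₀ ≠ 0)
    (hq0 : (q : L) ≠ 0) (hirr : Irreducible (X ^ q - C (algebraMap P L c) : L[X])) (e : E)
    (he : e ∈ IntermediateField.adjoin L {x₀}) (hint : IsIntegral P e) :
    ∃ (ε : E) (g : P[X]), (ε = 1 ∨ ε = -1) ∧
      ε * ((q : E) ^ q * (x₀ ^ q) ^ (q - 1)) * e = aeval x₀ g := by
  have hq1 : q ≠ 0 := hq.pos.ne'
  have hcL : algebraMap L E (algebraMap P L c) = x₀ ^ q := by
    rw [hx, ← IsScalarTower.algebraMap_apply P L E]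
  have hc0 : algebraMap P L c ≠ 0 := by
    intro h
    rw [h, map_zero] at hcL
    exact pow_ne_zero q hx0 hcL.symm
  have hxP : IsIntegral P x₀ := by
    refine ⟨X ^ q - C c, monic_X_pow_sub_C c hq1, ?_⟩
    rw [eval₂_sub, eval₂_X_pow, eval₂_C, hx, sub_self]
  have hxL : IsIntegral L x₀ := hxP.tower_top
  have hfd : FiniteDimensional L (IntermediateField.adjoin L {x₀}) :=
    IntermediateField.adjoin.finiteDimensional hxL
  have hmE : minpoly L x₀ = X ^ q - C (algebraMap P L c) := by
    refine (minpoly.eq_of_irreducible_of_monic hirr ?_ (monic_X_pow_sub_C _ hq1)).symm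
    rw [map_sub, map_pow, aeval_X, aeval_C, hcL, sub_self]
  have hsep : Algebra.IsSeparable L (IntermediateField.adjoin L {x₀}) := by
    rw [IntermediateField.isSeparable_adjoin_simple_iff_isSeparable]
    show (minpoly L x₀).Separable
    rw [hmE]
    exact separable_X_pow_sub_C _ hq0 hc0
  have htow : IsScalarTower P (IntermediateField.adjoin L {x₀}) E :=
    IsScalarTower.of_algebraMap_eq fun _ => rfl
  set B := IntermediateField.adjoin.powerBasis hxL with hB
  have hgen : B.gen = IntermediateField.AdjoinSimple.gen L x₀ := rfl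
  have hgenE : algebraMap (IntermediateField.adjoin L {x₀}) E B.gen = x₀ := by
    rw [hgen]
    rfl
  have hinj : Function.Injective (algebraMap (IntermediateField.adjoin L {x₀}) E) :=
    (algebraMap (IntermediateField.adjoin L {x₀}) E).injective
  have hm : minpoly L B.gen = X ^ q - C (algebraMap P L c) := by
    rw [hgen, IntermediateField.minpoly_gen, hmE]
  have hdim : B.dim = q := by
    rw [← B.natDegree_minpoly, hm, natDegree_X_pow_sub_C]
  have hfin : Module.finrank L (IntermediateField.adjoin L {x₀}) = q := by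
    rw [B.finrank, hdim]
  have hnorm : Algebra.norm L B.gen = algebraMap P L c := by
    rw [Algebra.PowerBasis.norm_gen_eq_coeff_zero_minpoly, hdim, hm, coeff_sub, coeff_X_pow,
      if_neg (Ne.symm hq1), coeff_C_zero, hq.neg_one_pow]
    ring
  have hdisc : Algebra.discr L B.basis = (-1) ^ (q * (q - 1) / 2) *
      ((q : L) ^ q * (algebraMap P L c) ^ (q - 1)) := by
    rw [Algebra.discr_powerBasis_eq_norm, hfin, hm]
    congr 1
    rw [derivative_sub, derivative_C, sub_zero, derivative_X_pow, map_mul, map_pow, aeval_X,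
      map_mul, map_pow, hnorm]
    congr 1
    rw [aeval_C, Algebra.norm_algebraMap, hfin]
  have hgint : IsIntegral P B.gen := by
    rw [← isIntegral_algebraMap_iff hinj, hgenE]
    exact hxP
  have heint : IsIntegral P (⟨e, he⟩ : IntermediateField.adjoin L {x₀}) := by
    rw [← isIntegral_algebraMap_iff hinj]
    exact hint
  have hmain := Algebra.discr_mul_isIntegral_mem_adjoin L (R := P) (B := B) hgint heint
  rw [Algebra.adjoin_singleton_eq_range_aeval, AlgHom.mem_range] at hmain
  obtain ⟨g, hg⟩ := hmain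
  refine ⟨(-1) ^ (q * (q - 1) / 2), g, neg_one_pow_eq_or E _, ?_⟩
  have h1 := congrArg (algebraMap (IntermediateField.adjoin L {x₀}) E) hg
  rw [← aeval_algebraMap_apply, hgenE] at h1
  rw [h1, Algebra.smul_def, map_mul, ← IsScalarTower.algebraMap_apply L, hdisc]
  rw [map_mul, map_mul, map_pow, map_pow, map_pow, map_neg, map_one, map_natCast, hcL]
  rfl

/-- the abstract form -/
theorem abs_main (k P L E : Type) [Field k] [CommRing P] [IsDomain P] [IsIntegrallyClosed P]
    [Field L] [Algebra P L] [IsFractionRing P L] [Field E] [Algebra k E] [Algebra P E]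
    [Algebra L E] [IsScalarTower P L E] (A : Subalgebra k E) (x₀ : E)
    (hPA : ∀ f : P, algebraMap P E f ∈ A) (hxA : x₀ ∈ A) (hxA' : x₀⁻¹ ∈ A)
    (q : ℕ) (hq : Odd q) (c : P) (hx : x₀ ^ q = algebraMap P E c) (hx0 : x₀ ≠ 0)
    (hqk : (q : k) ≠ 0) (hq0 : (q : L) ≠ 0)
    (hirr : Irreducible (X ^ q - C (algebraMap P L c) : L[X]))
    (hA : ∀ a ∈ A, ∃ N : ℕ, IsIntegral P (x₀ ^ N * a)) (e : E)
    (heF : e ∈ IntermediateField.adjoin L {x₀}) (p : E[X]) (hpm : p.Monic)
    (hpc : ∀ i, p.coeff i ∈ A) (hpe : p.eval e = 0) : e ∈ A := by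
  have hq1 : q ≠ 0 := hq.pos.ne'
  have hxP : IsIntegral P x₀ := by
    refine ⟨X ^ q - C c, monic_X_pow_sub_C c hq1, ?_⟩
    rw [eval₂_sub, eval₂_X_pow, eval₂_C, hx, sub_self]
  obtain ⟨N, hN⟩ := scale P E x₀ hxP p hpm (fun i => hA _ (hpc i)) e hpe
  have hxF : x₀ ∈ IntermediateField.adjoin L {x₀} :=
    IntermediateField.mem_adjoin_simple_self L x₀
  obtain ⟨ε, g, hε, hg⟩ := disc_step P L E q hq c
    x₀ hx hx0 hq0 hirr (x₀ ^ N * e) (mul_mem (pow_mem hxF N) heF) hN
  have hgA : (aeval x₀) g ∈ A := by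
    rw [aeval_eq_sum_range]
    refine sum_mem fun i _ => ?_
    rw [Algebra.smul_def]
    exact mul_mem (hPA _) (pow_mem hxA i)
  have hqE : (q : E) ≠ 0 := by
    intro h
    apply hqk
    apply (algebraMap k E).injective
    rw [map_natCast, map_zero, h]
  have hε0 : ε ≠ 0 := by
    rcases hε with h | h <;> rw [h]
    · exact one_ne_zero
    · exact neg_ne_zero.mpr one_ne_zero
  have hεA : ε⁻¹ ∈ A := by
    rcases hε with h | h <;> rw [h]
    · rw [inv_one]
      exact one_mem _
    · rw [inv_neg, inv_one]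
      exact neg_mem (one_mem _)
  have hqA : ((q : E) ^ q)⁻¹ ∈ A := by
    have h1 : ((q : E) ^ q)⁻¹ = algebraMap k E (((q : k) ^ q)⁻¹) := by
      rw [map_inv₀, map_pow, map_natCast]
    rw [h1]
    exact Subalgebra.algebraMap_mem _ _
  have hfin : e = ε⁻¹ * ((q : E) ^ q)⁻¹ * (x₀⁻¹) ^ (q * (q - 1) + N) * (aeval x₀) g := by
    rw [← hg, inv_pow, pow_add, pow_mul]
    have hx1 : x₀ ^ N ≠ 0 := pow_ne_zero _ hx0
    have hx2 : (x₀ ^ q) ^ (q - 1) ≠ 0 := pow_ne_zero _ (pow_ne_zero _ hx0)
    have hx3 : (q : E) ^ q ≠ 0 := pow_ne_zero _ hqE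
    generalize (x₀ ^ q) ^ (q - 1) = u at *
    generalize x₀ ^ N = v at *
    generalize (q : E) ^ q = w at *
    field_simp
  rw [hfin]
  exact mul_mem (mul_mem (mul_mem hεA hqA) (pow_mem hxA' _)) hgA

/-- membership in the field generated over the fraction field -/
theorem mem_field (k P L E ι : Type) [Field k] [CommRing P] [Algebra k P] [Field L] [Algebra P L]
    [Algebra k L] [IsScalarTower k P L] [Field E] [Algebra k E] [Algebra P E] [Algebra L E]
    [IsScalarTower P L E] [IsScalarTower k L E] (z : ι → E)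
    (x₀ : E) (hz : ∀ i, ∃ f : P, algebraMap P E f = z i) :
    ∀ e ∈ IntermediateField.adjoin k (Set.range z ∪ {x₀}), e ∈ IntermediateField.adjoin L {x₀} := by
  have h : IntermediateField.adjoin k (Set.range z ∪ {x₀}) ≤
      (IntermediateField.adjoin L {x₀}).restrictScalars k := by
    rw [IntermediateField.adjoin_le_iff]
    intro a ha
    show a ∈ IntermediateField.adjoin L {x₀}
    rcases ha with ⟨i, rfl⟩ | ha
    · obtain ⟨f, hf⟩ := hz i
      rw [← hf, IsScalarTower.algebraMap_apply P L E]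
      exact IntermediateField.algebraMap_mem _ _
    · rw [Set.mem_singleton_iff] at ha
      rw [ha]
      exact IntermediateField.mem_adjoin_simple_self L x₀
  exact fun e he => h he

/-- irreducibility -/
theorem irr (k P L : Type) [Field k] [CommRing P] [IsDomain P] [IsIntegrallyClosed P]
    [Field L] [Algebra P L] [IsFractionRing P L] (q : ℕ) (c : P) (θ : P →+* k[X])
    (hq : Odd q) (hqk : (q : k) ≠ 0) (hθ : θ c = -(X ^ q + 1)) :
    Irreducible (X ^ q - C (algebraMap P L c) : L[X]) := by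
  have hq1 : q ≠ 0 := hq.pos.ne'
  have hsq : Squarefree (X ^ q + 1 : k[X]) := by
    have h1 := (separable_X_pow_sub_C (-1 : k) hqk (neg_ne_zero.mpr one_ne_zero)).squarefree
    rwa [map_neg, map_one, sub_neg_eq_add] at h1
  refine X_pow_sub_C_irreducible_of_odd hq fun l hl hlq b hb => ?_
  have h1 : IsIntegral P b := by
    refine ⟨X ^ l - C c, monic_X_pow_sub_C c hl.ne_zero, ?_⟩
    rw [eval₂_sub, eval₂_X_pow, eval₂_C, hb, sub_self]
  obtain ⟨b0, hb0⟩ := IsIntegrallyClosed.isIntegral_iff.mp h1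
  have h2 : b0 ^ l = c := by
    apply IsFractionRing.injective P L
    rw [map_pow, hb0, hb]
  have h3 : (θ b0) ^ l = -(X ^ q + 1) := by
    rw [← map_pow, h2, hθ]
  have h4 : θ b0 * θ b0 ∣ X ^ q + 1 := by
    have h5 : θ b0 * θ b0 ∣ (θ b0) ^ l := by
      rw [← pow_two]
      exact pow_dvd_pow _ hl.two_le
    rw [h3] at h5
    exact (dvd_neg.mp h5)
  have h6 : IsUnit (θ b0) := hsq _ h4
  have h7 : IsUnit (X ^ q + 1 : k[X]) := by
    have h8 := h6.pow l
    rw [h3] at h8
    exact (IsUnit.neg_iff _).mp h8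
  have h9 : (X ^ q + 1 : k[X]).natDegree = q := by
    have h10 := natDegree_X_pow_sub_C (n := q) (r := (-1 : k))
    rwa [map_neg, map_one, sub_neg_eq_add] at h10
  have h11 := natDegree_eq_zero_of_isUnit h7
  omega

/-- elements of `A` are integral up to powers of `x₀` -/
theorem adjoin_int (k P E : Type) [Field k] [CommRing P] [Algebra k P] [Field E] [Algebra k E]
    [Algebra P E] [IsScalarTower k P E] {ι : Type} (z : ι → E) (x₀ : E) (hx0 : x₀ ≠ 0)
    (hxP : IsIntegral P x₀) (hz : ∀ i, ∃ f : P, algebraMap P E f = z i) :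
    ∀ a ∈ Algebra.adjoin k (Set.range z ∪ {x₀, x₀⁻¹}), ∃ N : ℕ, IsIntegral P (x₀ ^ N * a) := by
  intro a ha
  induction ha using Algebra.adjoin_induction with
  | mem a ha =>
    rcases ha with ⟨i, rfl⟩ | ha
    · refine ⟨0, ?_⟩
      obtain ⟨f, hf⟩ := hz i
      rw [pow_zero, one_mul, ← hf]
      exact isIntegral_algebraMap
    · rcases ha with rfl | ha
      · exact ⟨0, by rw [pow_zero, one_mul]; exact hxP⟩
      · rw [Set.mem_singleton_iff] at ha
        refine ⟨1, ?_⟩
        rw [ha, pow_one, mul_inv_cancel₀ hx0]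
        exact isIntegral_one
  | algebraMap r =>
    refine ⟨0, ?_⟩
    rw [pow_zero, one_mul, IsScalarTower.algebraMap_apply k P E]
    exact isIntegral_algebraMap
  | add a b _ _ ha hb =>
    obtain ⟨N, hN⟩ := ha
    obtain ⟨M, hM⟩ := hb
    refine ⟨N + M, ?_⟩
    have h1 : x₀ ^ (N + M) * (a + b) = x₀ ^ M * (x₀ ^ N * a) + x₀ ^ N * (x₀ ^ M * b) := by ring
    rw [h1]
    exact ((hxP.pow M).mul hN).add ((hxP.pow N).mul hM)
  | mul a b _ _ ha hb =>
    obtain ⟨N, hN⟩ := ha
    obtain ⟨M, hM⟩ := hb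
    refine ⟨N + M, ?_⟩
    have h1 : x₀ ^ (N + M) * (a * b) = (x₀ ^ N * a) * (x₀ ^ M * b) := by ring
    rw [h1]
    exact hN.mul hM

theorem main : S_NORM := by
  intro k _ E _ _ ι _ z q c x₀ θ hq hqk hz hx0 hx hθ e heK hp
  obtain ⟨p, hpm, hpc, hpe⟩ := hp
  have hq1 : q ≠ 0 := hq.pos.ne'
  let algPE : Algebra (MvPolynomial ι k) E := (MvPolynomial.aeval z).toRingHom.toAlgebra
  have hPE : ∀ f : MvPolynomial ι k, algebraMap (MvPolynomial ι k) E f = MvPolynomial.aeval z f :=
    fun _ => rfl
  have towkPE : IsScalarTower k (MvPolynomial ι k) E := IsScalarTower.of_algebraMap_eq fun a => by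
    rw [hPE, MvPolynomial.algebraMap_eq, MvPolynomial.aeval_C]
  have faith : FaithfulSMul (MvPolynomial ι k) E := by
    rw [faithfulSMul_iff_algebraMap_injective]
    exact hz
  let algLE : Algebra (FractionRing (MvPolynomial ι k)) E :=
    FractionRing.liftAlgebra (MvPolynomial ι k) E
  have towPLE : IsScalarTower (MvPolynomial ι k) (FractionRing (MvPolynomial ι k)) E :=
    FractionRing.isScalarTower_liftAlgebra (MvPolynomial ι k) E
  have towkLE : IsScalarTower k (FractionRing (MvPolynomial ι k)) E :=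
    IsScalarTower.of_algebraMap_eq fun a => by
      rw [IsScalarTower.algebraMap_apply k (MvPolynomial ι k) (FractionRing (MvPolynomial ι k)),
        ← IsScalarTower.algebraMap_apply (MvPolynomial ι k) (FractionRing (MvPolynomial ι k)) E,
        ← IsScalarTower.algebraMap_apply k (MvPolynomial ι k) E]
  have hxP : IsIntegral (MvPolynomial ι k) x₀ := by
    refine ⟨X ^ q - C c, monic_X_pow_sub_C c hq1, ?_⟩
    rw [eval₂_sub, eval₂_X_pow, eval₂_C, hx, hPE, sub_self]
  have hzP : ∀ i, ∃ f : MvPolynomial ι k, algebraMap (MvPolynomial ι k) E f = z i := fun i =>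
    ⟨MvPolynomial.X i, by rw [hPE, MvPolynomial.aeval_X]⟩
  have hA := adjoin_int k (MvPolynomial ι k) E z x₀ hx0 hxP hzP
  have hirr := irr k (MvPolynomial ι k) (FractionRing (MvPolynomial ι k)) q c θ.toRingHom hq hqk hθ
  have hqL : (q : FractionRing (MvPolynomial ι k)) ≠ 0 := by
    intro h
    apply hqk
    apply (algebraMap k (FractionRing (MvPolynomial ι k))).injective
    rw [map_natCast, map_zero, h]
  have heF := mem_field k (MvPolynomial ι k) (FractionRing (MvPolynomial ι k)) E ι z x₀ hzP e heK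
  have hPA : ∀ f : MvPolynomial ι k, algebraMap (MvPolynomial ι k) E f ∈
      Algebra.adjoin k (Set.range z ∪ {x₀, x₀⁻¹}) := by
    intro f
    rw [hPE]
    have h1 : MvPolynomial.aeval z f ∈ Algebra.adjoin k (Set.range z) := by
      rw [Algebra.adjoin_range_eq_range_aeval]
      exact ⟨f, rfl⟩
    exact Algebra.adjoin_mono Set.subset_union_left h1
  exact abs_main k (MvPolynomial ι k) (FractionRing (MvPolynomial ι k)) E
    (Algebra.adjoin k (Set.range z ∪ {x₀, x₀⁻¹})) x₀ hPA
    (Algebra.subset_adjoin (Or.inr (Or.inl rfl))) (Algebra.subset_adjoin (Or.inr (Or.inr rfl)))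
    q hq c hx hx0 hqk hqL hirr hA e heF p hpm hpc hpe

end Pool.Agent.W45.CB
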